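import Mathlib
import Pool.Agent.Q261.DR.Apply

set_option autoImplicit false

/-!
# Montgomery's conjecture for almost all additive twists and sets of at most `N²/T` points

For every `D(t) = ∑_{n ≤ N} a_n n^{it}` with `|a_n| ≤ 1` and every modulus `m`, all but at most
`m N^(-ε/3)` of the `m` twisted polynomials `∑ a_n e(rn/m) n^{it}`, `r mod m`, satisfy
`∑_{t ∈ S} |D(t)|² ≤ C N^(1+ε) (|S| T)^(1/2)` simultaneously for all `T` with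
`max(N, N²/m) ≤ T ≤ N²` and all `1`-separated `S ⊂ [0,T]`. This gives the bound
`C N^ε (N + |S|) N` of Q1 for all sets `S` of at most `N²/T` points; for all polynomials it is known for
at most `N/T^(1/2)` points. The family need only have `N²/T` members.

The proof: the hybrid fourth moment
`∑_{r mod m} ∑_{t ∈ S_r} |D_r(t)|⁴ ≤ C N^(2+ε) (mT + mN + N²)`
(`Pool/Agent/Q261/DR/Sep.lean`), which rests on the count of the solutions of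
`n₁ + n₂ ≡ m₁ + m₂ mod m`, `|n₁n₂ - m₁m₂| ≤ N²/T`.
-/

namespace Pool.Agent.Results.MP_71ac24_nt.AdditiveTwists

open Finset

/-- `D(t) = ∑_{n ≤ N} a_n n^{it}` -/
noncomputable def D (N : ℕ) (a : ℕ → ℂ) (t : ℝ) : ℂ :=
  ∑ n ∈ Icc 1 N, a n * Complex.exp (Complex.I * (t : ℂ) * (Real.log (n : ℝ) : ℂ))

/-- the coefficients `a_n e(rn/m)`, `e(x) = exp(2πix)` -/
noncomputable def twist (m r : ℕ) (a : ℕ → ℂ) (n : ℕ) : ℂ :=
  a n * Complex.exp (2 * Real.pi * Complex.I * ((r : ℂ) * n / m))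

/-- the bound for all `T` with `N ≤ T ≤ N²`, `N² ≤ m T` and all `1`-separated sets; the second part is the
inequality of Q1 for the sets of at most `N²/T` points -/
def Montgomery (C ε : ℝ) (N m : ℕ) (a : ℕ → ℂ) : Prop :=
  ∀ T : ℝ, (N : ℝ) ≤ T → T ≤ (N : ℝ) ^ 2 → (N : ℝ) ^ 2 ≤ m * T → ∀ S : Finset ℝ,
    (∀ t ∈ S, 0 ≤ t ∧ t ≤ T) → (∀ t ∈ S, ∀ u ∈ S, t ≠ u → 1 ≤ |t - u|) →
    ∑ t ∈ S, ‖D N a t‖ ^ 2 ≤ C * (N : ℝ) ^ ε * (N * Real.sqrt (S.card * T)) ∧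
    (S.card * T ≤ (N : ℝ) ^ 2 → ∑ t ∈ S, ‖D N a t‖ ^ 2 ≤ C * (N : ℝ) ^ ε * ((N + S.card) * N))

/-- **Main theorem.** -/
theorem result (ε : ℝ) (hε : 0 < ε) : ∃ C : ℝ, ∀ N m : ℕ, 1 ≤ N → 1 ≤ m →
    ∀ a : ℕ → ℂ, (∀ n, ‖a n‖ ≤ 1) → ∃ B : Finset ℕ, B ⊆ range m ∧ (B.card : ℝ) ≤ m * (N : ℝ) ^ (-(ε / 3)) ∧
      ∀ r ∈ range m, r ∉ B → Montgomery C ε N m (twist m r a) := by
  classical
  obtain ⟨C, hC, hfour⟩ := Pool.Agent.Q261.DR.fourth ε hε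
  refine ⟨C, ?_⟩
  intro N m hN hm a ha
  have hsub : Icc 1 N ⊆ Icc 1 (2 * N) := Icc_subset_Icc_right (by omega)
  obtain ⟨B, hB1, hB2, hB3⟩ := hfour N m hN hm (Icc 1 N) hsub a ha
  refine ⟨B, hB1, hB2, ?_⟩
  intro r hr hrB T hT1 hT2 hmT S hS hsep
  have hNr : (1 : ℝ) ≤ N := by exact_mod_cast hN
  have hN0 : (0 : ℝ) < N := by linarith
  have hT0 : (0 : ℝ) < T := by linarith
  have hNε : 1 ≤ (N : ℝ) ^ ε := Real.one_le_rpow hNr hε.le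
  have hCN : 1 ≤ C * (N : ℝ) ^ ε := by nlinarith
  have h1 : ∑ t ∈ S, ‖D N (twist m r a) t‖ ^ 4 ≤ C * (N : ℝ) ^ ε * ((N : ℝ) ^ 2 * T) :=
    hB3 r hr hrB T hT1 hT2 hmT S hS hsep
  have h2 : (∑ t ∈ S, ‖D N (twist m r a) t‖ ^ 2) ^ 2 ≤ (C * (N : ℝ) ^ ε * (N * Real.sqrt (S.card * T))) ^ 2 := by
    have h3 := sum_mul_sq_le_sq_mul_sq S (fun _ => (1 : ℝ)) (fun t => ‖D N (twist m r a) t‖ ^ 2)
    simp only [one_mul, one_pow, sum_const, nsmul_eq_mul, mul_one] at h3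
    have h4 : ∀ t ∈ S, (‖D N (twist m r a) t‖ ^ 2) ^ 2 = ‖D N (twist m r a) t‖ ^ 4 := fun t _ => by ring
    rw [sum_congr rfl h4] at h3
    have h5 : Real.sqrt (S.card * T) ^ 2 = S.card * T := Real.sq_sqrt (by positivity)
    calc (∑ t ∈ S, ‖D N (twist m r a) t‖ ^ 2) ^ 2 ≤ S.card * ∑ t ∈ S, ‖D N (twist m r a) t‖ ^ 4 := h3
      _ ≤ S.card * (C * (N : ℝ) ^ ε * ((N : ℝ) ^ 2 * T)) := by gcongr
      _ = (C * (N : ℝ) ^ ε) * ((N : ℝ) ^ 2 * (S.card * T)) := by ring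
      _ ≤ (C * (N : ℝ) ^ ε) ^ 2 * ((N : ℝ) ^ 2 * (S.card * T)) := by
          have h6 : C * (N : ℝ) ^ ε ≤ (C * (N : ℝ) ^ ε) ^ 2 := by nlinarith
          gcongr
      _ = (C * (N : ℝ) ^ ε * (N * Real.sqrt (S.card * T))) ^ 2 := by
          rw [mul_pow (C * (N : ℝ) ^ ε), mul_pow (N : ℝ), h5]
  have h3 : ∑ t ∈ S, ‖D N (twist m r a) t‖ ^ 2 ≤ C * (N : ℝ) ^ ε * (N * Real.sqrt (S.card * T)) :=
    (abs_le_of_sq_le_sq' h2 (by positivity)).2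
  refine ⟨h3, ?_⟩
  intro hST
  refine h3.trans ?_
  apply mul_le_mul_of_nonneg_left _ (by positivity)
  have h4 : Real.sqrt (S.card * T) ≤ N := by
    rw [Real.sqrt_le_left hN0.le]
    exact hST
  have h5 : (0 : ℝ) ≤ S.card := by positivity
  nlinarith

end Pool.Agent.Results.MP_71ac24_nt.AdditiveTwists
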