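import Mathlib
import Pool.Agent.Q261.DQ.Final

set_option autoImplicit false

/-!
# The `ℓ²` form of Montgomery's conjecture fails on every support of more than `N^(2/3+δ)` elements

For a random set `I` of `k` integers of `[1, N]` the inequality

`∑_{t ∈ S} |D(t)|² ≤ C N^ε (N + |S|) ∑ |a_n|²`   (`1`-separated `S ⊂ [0,T]`, `a` supported on `I`)

holds for `T ≤ N²/k` (`Pool/Agent/Results/MP_71ac24_nt/RandomSupports.lean`). We show that this range is
sharp for `k ≥ N^(2/3+δ)`, and not only for random supports: for EVERY set `I` of at least `N^(2/3+δ)`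
integers of `[1, N]` the inequality fails by a power of `N` for `T = N^(2+δ)/|I|`, with a set `S` of at
most `N` integers and coefficients `0`, `1`, `-1`. So no choice of the support of this size saves the `ℓ²`
form (which is false for the full interval by Bourgain), and in an attack on Q1 the hypothesis `|a_n| ≤ 1`
has to be used also for the polynomials whose coefficients vanish outside a given set.
-/

namespace Pool.Agent.Results.MP_71ac24_nt.EverySupport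

open Finset Filter

/-- `D(t) = ∑_{n ≤ N} a_n n^{it}` -/
noncomputable def D (N : ℕ) (a : ℕ → ℂ) (t : ℝ) : ℂ :=
  ∑ n ∈ Icc 1 N, a n * Complex.exp (Complex.I * (t : ℂ) * (Real.log (n : ℝ) : ℂ))

/-- a dyadic block with many elements -/
lemma block (N : ℕ) (I : Finset ℕ) (hI : I ⊆ Icc 1 N) :
    ∃ X : ℕ, 1 ≤ X ∧ X ≤ N + 1 ∧ I.card ≤ (Nat.log 2 N + 1) * (I ∩ Icc X (2 * X)).card := by
  classical
  rcases I.eq_empty_or_nonempty with h0 | h0
  · refine ⟨1, le_refl _, by omega, ?_⟩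
    rw [h0]
    simp
  by_contra hcon
  push Not at hcon
  have hmaps : ∀ n ∈ I, Nat.log 2 n ∈ range (Nat.log 2 N + 1) := by
    intro n hn
    have := (mem_Icc.1 (hI hn)).2
    rw [mem_range]
    have := Nat.log_mono_right (b := 2) this
    omega
  have h1 := card_eq_sum_card_fiberwise hmaps
  have h2 : ∀ i ∈ range (Nat.log 2 N + 1), (Nat.log 2 N + 1) * (I.filter (fun n => Nat.log 2 n = i)).card < I.card := by
    intro i hi
    have hiN : 2 ^ i ≤ N + 1 := by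
      obtain ⟨n, hn⟩ := h0
      have hn1 := mem_Icc.1 (hI hn)
      have hN0 : N ≠ 0 := by omega
      have : 2 ^ i ≤ N := by
        calc 2 ^ i ≤ 2 ^ Nat.log 2 N := Nat.pow_le_pow_right (by norm_num) (by have := mem_range.1 hi; omega)
          _ ≤ N := Nat.pow_log_le_self 2 hN0
      omega
    refine lt_of_le_of_lt ?_ (hcon (2 ^ i) Nat.one_le_two_pow hiN)
    apply Nat.mul_le_mul_left
    apply card_le_card
    intro n hn
    rw [mem_filter] at hn
    have hn1 := mem_Icc.1 (hI hn.1)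
    rw [mem_inter, mem_Icc]
    refine ⟨hn.1, ?_, ?_⟩
    · rw [← hn.2]
      exact Nat.pow_log_le_self 2 (by omega)
    · rw [← hn.2]
      have := Nat.lt_pow_succ_log_self (b := 2) (by norm_num) n
      rw [pow_succ] at this
      omega
  have h3 : (Nat.log 2 N + 1) * I.card < (Nat.log 2 N + 1) * I.card := by
    calc (Nat.log 2 N + 1) * I.card = ∑ i ∈ range (Nat.log 2 N + 1),
          (Nat.log 2 N + 1) * (I.filter (fun n => Nat.log 2 n = i)).card := by rw [← mul_sum, ← h1]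
      _ < ∑ i ∈ range (Nat.log 2 N + 1), I.card :=
          sum_lt_sum_of_nonempty ⟨0, mem_range.2 (Nat.succ_pos _)⟩ h2
      _ = _ := by rw [sum_const, card_range, smul_eq_mul]
  exact lt_irrefl _ h3

lemma log_small (ω : ℝ) (hω : 0 < ω) : ∀ᶠ N : ℕ in atTop, (Nat.log 2 N : ℝ) + 1 ≤ (N : ℝ) ^ ω := by
  have h1 : Tendsto (fun x : ℝ => Real.log x / x ^ (ω / 2)) atTop (nhds 0) :=
    (isLittleO_log_rpow_atTop (by positivity)).tendsto_div_nhds_zero
  have h2 := (h1.comp tendsto_natCast_atTop_atTop).eventually (eventually_le_nhds (show (0 : ℝ) < 1 by norm_num))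
  filter_upwards [h2, Pool.Agent.Q261.DQ.ev_pow 3 (ω / 2) (by positivity), eventually_ge_atTop 2] with N e1 e2 hN
  have hNr : (2 : ℝ) ≤ N := by exact_mod_cast hN
  have hp : 0 < (N : ℝ) ^ (ω / 2) := Real.rpow_pos_of_pos (by linarith) _
  simp only [Function.comp_apply] at e1
  rw [div_le_one hp] at e1
  have h3 : (Nat.log 2 N : ℝ) ≤ Real.log N / Real.log 2 := by
    rw [le_div_iff₀ (Real.log_pos (by norm_num))]
    rw [← Real.log_pow]
    apply Real.log_le_log (by positivity)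
    exact_mod_cast Nat.pow_log_le_self 2 (by omega)
  have h4 : Real.log N / Real.log 2 ≤ 2 * Real.log N := by
    rw [div_le_iff₀ (Real.log_pos (by norm_num))]
    have := Real.log_two_gt_d9
    have h5 : 0 ≤ Real.log N := Real.log_nonneg (by linarith)
    nlinarith
  have h6 : (N : ℝ) ^ ω = (N : ℝ) ^ (ω / 2) * (N : ℝ) ^ (ω / 2) := by
    rw [← Real.rpow_add (by linarith)]
    congr 1
    ring
  rw [h6]
  nlinarith

/-- **Main theorem.** -/
theorem result (δ : ℝ) (hδ : 0 < δ) : ∃ ε : ℝ, 0 < ε ∧ ∀ᶠ N : ℕ in atTop,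
    ∀ I : Finset ℕ, I ⊆ Icc 1 N → (N : ℝ) ^ (2 / 3 + δ) ≤ I.card →
      ∃ (a : ℕ → ℂ) (S : Finset ℝ), (∀ n, a n = 0 ∨ a n = 1 ∨ a n = -1) ∧ (∀ n, n ∉ I → a n = 0) ∧
        (∃ n, a n ≠ 0) ∧ (∀ t ∈ S, 0 ≤ t ∧ t ≤ (N : ℝ) ^ (2 + δ) / I.card) ∧
        (∀ t ∈ S, ∀ u ∈ S, t ≠ u → 1 ≤ |t - u|) ∧ S.card ≤ N ∧
        (N : ℝ) ^ ε * ((N : ℝ) + S.card) * ∑ n ∈ Icc 1 N, ‖a n‖ ^ 2 ≤ ∑ t ∈ S, ‖D N a t‖ ^ 2 := by
  classical
  set ω : ℝ := δ / 4 with hω
  have hω0 : 0 < ω := by positivity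
  refine ⟨ω / 2, by positivity, ?_⟩
  filter_upwards [log_small ω hω0, Pool.Agent.Q261.DQ.ev_pow 48 (2 / 3) (by norm_num),
    Pool.Agent.Q261.DQ.ev_pow 3200 (6 * ω) (by positivity),
    Pool.Agent.Q261.DQ.ev_pow 18432 (ω / 2) (by positivity),
    eventually_ge_atTop 1] with N e1 e2 e3 e4 hN1
  intro I hI hIc
  have hNr : (1 : ℝ) ≤ N := by exact_mod_cast hN1
  have hN0 : (0 : ℝ) < N := by linarith
  have pw : ∀ a b : ℝ, (N : ℝ) ^ a * (N : ℝ) ^ b = (N : ℝ) ^ (a + b) := fun a b =>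
    (Real.rpow_add hN0 a b).symm
  have pwn : ∀ (a : ℝ) (k : ℕ), ((N : ℝ) ^ a) ^ k = (N : ℝ) ^ (a * k) := fun a k => by
    rw [← Real.rpow_natCast, ← Real.rpow_mul hN0.le]
  have pos : ∀ a : ℝ, 0 < (N : ℝ) ^ a := fun a => Real.rpow_pos_of_pos hN0 a
  have one_le : ∀ a : ℝ, 0 ≤ a → 1 ≤ (N : ℝ) ^ a := fun a h => by
    have := Real.rpow_le_rpow_of_exponent_le hNr h
    rwa [Real.rpow_zero] at this
  obtain ⟨X, hX1, hXN, hblock⟩ := block N I hI
  set I' := I ∩ Icc X (2 * X) with hI'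
  obtain ⟨k, hk⟩ : ∃ k : ℕ, k = I'.card := ⟨_, rfl⟩
  have hIpos : (0 : ℝ) < I.card := lt_of_lt_of_le (pos _) hIc
  have hkI : (I.card : ℝ) ≤ (N : ℝ) ^ ω * k := by
    have h1 : (I.card : ℝ) ≤ ((Nat.log 2 N : ℝ) + 1) * k := by rw [hk]; exact_mod_cast hblock
    refine h1.trans ?_
    gcongr
  have hk0 : (0 : ℝ) < k := by
    by_contra h
    push Not at h
    have : (N : ℝ) ^ ω * k ≤ 0 := mul_nonpos_of_nonneg_of_nonpos (pos _).le h
    linarith
  -- `k ≥ N^(2/3 + 3 ω)`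
  have hkbig : (N : ℝ) ^ (2 / 3 + 3 * ω) ≤ k := by
    have h1 : (N : ℝ) ^ ω * (N : ℝ) ^ (2 / 3 + 3 * ω) ≤ (N : ℝ) ^ ω * k := by
      rw [pw]
      refine le_trans (le_of_eq ?_) (hIc.trans hkI)
      congr 1
      rw [hω]
      ring
    exact le_of_mul_le_mul_left h1 (pos _)
  have hXr : (1 : ℝ) ≤ X := by exact_mod_cast hX1
  have hX2 : (X : ℝ) ≤ 2 * N := by
    have : (X : ℝ) ≤ N + 1 := by exact_mod_cast hXN
    linarith
  have hX0 : (0 : ℝ) < X := by linarith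
  have hkX : (k : ℝ) ≤ 2 * X := by
    have h1 : I'.card ≤ (Icc X (2 * X)).card := card_le_card inter_subset_right
    rw [Nat.card_Icc] at h1
    have h2 : k ≤ 2 * X := by omega
    exact_mod_cast h2
  -- the parameters
  set J : ℕ := ⌈(N : ℝ) ^ ω * X / k⌉₊ with hJ
  set T : ℕ := ⌊(N : ℝ) ^ (1 + ω) * X / k⌋₊ with hT
  have hq : (1 : ℝ) / 2 ≤ (N : ℝ) ^ ω * X / k := by
    rw [div_le_div_iff₀ (by norm_num) hk0]
    have := one_le ω hω0.le
    nlinarith
  have hJ1 : (N : ℝ) ^ ω * X / k ≤ J := Nat.le_ceil _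
  have hJ2 : (J : ℝ) + 1 ≤ 5 * ((N : ℝ) ^ ω * X / k) := by
    have := Nat.ceil_lt_add_one (show 0 ≤ (N : ℝ) ^ ω * X / k by positivity)
    rw [← hJ] at this
    linarith
  have hT1 : (T : ℝ) ≤ (N : ℝ) ^ (1 + ω) * X / k := Nat.floor_le (by positivity)
  have hT2 : (N : ℝ) ^ (1 + ω) * X / k ≤ T + 1 := (Nat.lt_floor_add_one _).le
  have hJn : 1 ≤ J := by
    have : (0 : ℝ) < J := by linarith
    exact_mod_cast this
  have hc1 : 8 * 1 ^ 2 * (J + 1) ≤ X := by
    have h1 : (8 : ℝ) * (J + 1) ≤ X := by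
      have h2 : 48 * ((N : ℝ) ^ ω * X / k) ≤ X := by
        rw [mul_div_assoc', div_le_iff₀ hk0]
        have h3 : 48 * (N : ℝ) ^ ω ≤ k := by
          refine le_trans ?_ hkbig
          calc 48 * (N : ℝ) ^ ω ≤ (N : ℝ) ^ (2 / 3 : ℝ) * (N : ℝ) ^ ω := by gcongr
            _ = (N : ℝ) ^ (2 / 3 + ω) := pw _ _
            _ ≤ _ := Real.rpow_le_rpow_of_exponent_le hNr (by linarith)
        nlinarith
      linarith
    have h4 : 8 * (J + 1) ≤ X := by exact_mod_cast h1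
    omega
  have hc2 : 64 * 1 ^ 2 * T * (J + 1) ^ 2 ≤ X ^ 2 := by
    have h1 : (64 : ℝ) * T * (J + 1) ^ 2 ≤ (X : ℝ) ^ 2 := by
      calc (64 : ℝ) * T * (J + 1) ^ 2 ≤ 64 * ((N : ℝ) ^ (1 + ω) * X / k) * (5 * ((N : ℝ) ^ ω * X / k)) ^ 2 := by
            gcongr
        _ = 1600 * ((N : ℝ) ^ (1 + ω) * ((N : ℝ) ^ ω) ^ 2) * X ^ 3 / (k : ℝ) ^ 3 := by
            field_simp
            ring
        _ ≤ (X : ℝ) ^ 2 := by
            rw [div_le_iff₀ (by positivity)]
            have h2 : 3200 * ((N : ℝ) * ((N : ℝ) ^ (1 + ω) * ((N : ℝ) ^ ω) ^ 2)) ≤ (k : ℝ) ^ 3 := by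
              have h3 : ((N : ℝ) ^ (2 / 3 + 3 * ω)) ^ 3 ≤ (k : ℝ) ^ 3 := pow_le_pow_left₀ (pos _).le hkbig 3
              rw [pwn] at h3
              have h4 : 3200 * ((N : ℝ) * ((N : ℝ) ^ (1 + ω) * ((N : ℝ) ^ ω) ^ 2)) ≤
                  (N : ℝ) ^ ((2 / 3 + 3 * ω) * ((3 : ℕ) : ℝ)) := by
                calc 3200 * ((N : ℝ) * ((N : ℝ) ^ (1 + ω) * ((N : ℝ) ^ ω) ^ 2)) ≤
                      (N : ℝ) ^ (6 * ω) * ((N : ℝ) ^ (1 : ℝ) * ((N : ℝ) ^ (1 + ω) * ((N : ℝ) ^ ω) ^ 2)) := by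
                      rw [Real.rpow_one]
                      gcongr
                  _ = _ := by
                      rw [pwn, pw, pw, pw]
                      congr 1
                      push_cast
                      ring
              linarith
            have h5 : 1600 * ((N : ℝ) ^ (1 + ω) * ((N : ℝ) ^ ω) ^ 2) * (X : ℝ) ≤ (k : ℝ) ^ 3 := by
              have h6 : 0 ≤ (N : ℝ) ^ (1 + ω) * ((N : ℝ) ^ ω) ^ 2 := by positivity
              nlinarith
            nlinarith [pow_pos hX0 2]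
    have h2 : 64 * T * (J + 1) ^ 2 ≤ X ^ 2 := by exact_mod_cast h1
    simpa using h2
  -- the clusters
  have hI'0 : I'.Nonempty := by
    rw [← card_pos, ← hk]
    exact_mod_cast hk0
  obtain ⟨b, W, G, hb1, hb2, hG, hGlow, hW1, hW2⟩ := Pool.Agent.Q261.DQ.core X 1 J T I'
    inter_subset_right hI'0 (le_refl _) hJn hc1 hc2
  have hsub : I' ⊆ Icc 1 N := inter_subset_left.trans hI
  have hsub2 : I' ⊆ Icc X (2 * X) := inter_subset_right
  have hGr : (k : ℝ) * (J + 1) ≤ 3 * X * G := by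
    have h1 : I'.card * 1 ^ 2 * (J + 1) ≤ 3 * X * G := hGlow
    rw [← hk] at h1
    have h2 : ((k * 1 ^ 2 * (J + 1) : ℕ) : ℝ) ≤ ((3 * X * G : ℕ) : ℝ) := by exact_mod_cast h1
    push_cast at h2
    linarith
  have hWr : (T : ℝ) + 1 ≤ 192 * (J + 1) * W.card := by exact_mod_cast hW2
  have hJp : (0 : ℝ) < (J : ℝ) + 1 := by positivity
  have hG1 : (N : ℝ) ^ ω ≤ 3 * G := by
    have h1 : (N : ℝ) ^ ω * X ≤ k * (J + 1) := by
      have h2 := (div_le_iff₀ hk0).1 hJ1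
      nlinarith
    have h2 : (N : ℝ) ^ ω * X ≤ 3 * G * X := by linarith
    exact le_of_mul_le_mul_right h2 hX0
  have hG0 : (0 : ℝ) < G := by
    have := pos ω
    linarith
  have hpow : (N : ℝ) ^ ω = (N : ℝ) ^ (ω / 2) * (N : ℝ) ^ (ω / 2) := by
    rw [pw]
    congr 1
    ring
  have hpow2 : (N : ℝ) ^ (1 + ω) = (N : ℝ) * (N : ℝ) ^ ω := by
    rw [← pw, Real.rpow_one]
  have hWG : (N : ℝ) ^ (1 + ω) ≤ 576 * (W.card * G) := by
    have h1 : (N : ℝ) ^ (1 + ω) * X ≤ (T + 1) * k := by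
      have h2 := (div_le_iff₀ hk0).1 hT2
      linarith
    have h2 : (N : ℝ) ^ (1 + ω) * X * (J + 1) ≤ 576 * (W.card * G) * X * (J + 1) := by
      calc (N : ℝ) ^ (1 + ω) * X * (J + 1) ≤ (T + 1) * k * (J + 1) := by gcongr
        _ = (T + 1) * (k * (J + 1)) := by ring
        _ ≤ (192 * (J + 1) * W.card) * (3 * X * G) := by gcongr
        _ = _ := by ring
    exact le_of_mul_le_mul_right (le_of_mul_le_mul_right h2 hJp) hX0
  obtain ⟨S0, hS0, hS0c⟩ := exists_subset_card_eq (show min W.card N ≤ W.card from min_le_left _ _)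
  have hinj : Function.Injective (fun t : ℕ => (t : ℝ)) := Nat.cast_injective
  have hsum : ∀ f : ℕ → ℂ, (∀ n, n ∉ I' → f n = 0) → ∑ n ∈ Icc 1 N, f n = ∑ n ∈ Icc X (2 * X), f n := by
    intro f hf
    rw [← sum_subset hsub (fun n _ hn => hf n hn), ← sum_subset hsub2 (fun n _ hn => hf n hn)]
  have hsumr : ∀ f : ℕ → ℝ, (∀ n, n ∉ I' → f n = 0) → ∑ n ∈ Icc 1 N, f n = ∑ n ∈ Icc X (2 * X), f n := by
    intro f hf
    rw [← sum_subset hsub (fun n _ hn => hf n hn), ← sum_subset hsub2 (fun n _ hn => hf n hn)]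
  have hD : ∀ t : ℕ, D N (fun n => (b n : ℂ)) (t : ℝ) =
      ∑ n ∈ Icc X (2 * X), (b n : ℂ) * Pool.Agent.Q261.DP.ph t n := by
    intro t
    unfold D
    rw [hsum]
    · apply sum_congr rfl
      intro n _
      congr 1
      unfold Pool.Agent.Q261.DP.ph
      congr 1
      push_cast
      ring
    · intro n hn
      simp [hb2 n hn]
  have hE : ∑ n ∈ Icc 1 N, ‖((b n : ℝ) : ℂ)‖ ^ 2 = G := by
    rw [hsumr]
    · rw [← hG]
      apply sum_congr rfl
      intro n _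
      rw [Complex.norm_real, Real.norm_eq_abs, sq_abs]
    · intro n hn
      simp [hb2 n hn]
  have hS0c' : (S0.card : ℝ) ≤ N := by
    rw [hS0c]
    exact_mod_cast min_le_right _ _
  refine ⟨fun n => (b n : ℂ), S0.image (fun t : ℕ => (t : ℝ)), ?_, ?_, ?_, ?_, ?_, ?_, ?_⟩
  · intro n
    rcases hb1 n with h | h | h
    · left; simp [h]
    · right; left; simp [h]
    · right; right; simp [h]
  · intro n hn
    have : n ∉ I' := fun h => hn (inter_subset_left h)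
    simp [hb2 n this]
  · by_contra hcon
    push Not at hcon
    have : ∑ n ∈ Icc 1 N, ‖((b n : ℝ) : ℂ)‖ ^ 2 = 0 := by
      apply sum_eq_zero
      intro n _
      rw [hcon n]
      simp
    rw [hE] at this
    linarith
  · intro t ht
    obtain ⟨t0, ht0, rfl⟩ := mem_image.1 ht
    refine ⟨by positivity, ?_⟩
    have h1 : (t0 : ℝ) ≤ T := by exact_mod_cast (hW1 t0 (hS0 ht0)).1
    refine h1.trans (hT1.trans ?_)
    rw [div_le_div_iff₀ hk0 hIpos]
    have h2 : (2 : ℝ) ≤ (N : ℝ) ^ (2 * ω) := by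
      have h3 : (N : ℝ) ^ (ω / 2) ≤ (N : ℝ) ^ (2 * ω) := Real.rpow_le_rpow_of_exponent_le hNr (by linarith)
      linarith
    calc (N : ℝ) ^ (1 + ω) * X * I.card ≤ (N : ℝ) ^ (1 + ω) * (2 * N) * ((N : ℝ) ^ ω * k) := by gcongr
      _ = 2 * ((N : ℝ) ^ (1 + ω) * (N : ℝ) * (N : ℝ) ^ ω) * k := by ring
      _ ≤ (N : ℝ) ^ (2 * ω) * ((N : ℝ) ^ (1 + ω) * (N : ℝ) ^ (1 : ℝ) * (N : ℝ) ^ ω) * k := by
          rw [Real.rpow_one]
          gcongr
      _ = (N : ℝ) ^ (2 + δ) * k := by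
          rw [pw, pw, pw]
          congr 2
          rw [hω]
          ring
  · intro t ht u hu htu
    obtain ⟨t0, ht0, rfl⟩ := mem_image.1 ht
    obtain ⟨u0, hu0, rfl⟩ := mem_image.1 hu
    have h1 : (t0 : ℤ) - u0 ≠ 0 := by
      intro h
      apply htu
      have : (t0 : ℤ) = u0 := by omega
      have h2 : t0 = u0 := by exact_mod_cast this
      rw [h2]
    have h2 := Int.one_le_abs h1
    have h3 : ((1 : ℤ) : ℝ) ≤ ((|(t0 : ℤ) - u0| : ℤ) : ℝ) := by exact_mod_cast h2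
    push_cast at h3
    exact h3
  · rw [card_image_of_injective _ hinj, hS0c]
    exact min_le_right _ _
  · rw [hE, card_image_of_injective _ hinj, sum_image (fun x _ y _ h => hinj h)]
    have h1 : (S0.card : ℝ) * (G : ℝ) ^ 2 ≤ 16 * ∑ t ∈ S0, ‖D N (fun n => (b n : ℂ)) (t : ℝ)‖ ^ 2 := by
      rw [mul_sum, ← nsmul_eq_mul]
      apply card_nsmul_le_sum
      intro t ht
      have h2 := (hW1 t (hS0 ht)).2
      rw [hD t]
      simpa using h2
    have h2 : 16 * ((N : ℝ) ^ (ω / 2) * ((N : ℝ) + S0.card)) ≤ S0.card * G := by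
      rcases le_total W.card N with hc | hc
      · have h3 : (S0.card : ℝ) = W.card := by rw [hS0c, min_eq_left hc]
        have h4 : (N : ℝ) + S0.card ≤ 2 * N := by linarith
        have h5 : 576 * (16 * ((N : ℝ) ^ (ω / 2) * ((N : ℝ) + S0.card))) ≤ 576 * (S0.card * G) := by
          calc 576 * (16 * ((N : ℝ) ^ (ω / 2) * ((N : ℝ) + S0.card))) ≤
                576 * (16 * ((N : ℝ) ^ (ω / 2) * (2 * N))) := by gcongr
            _ = N * (18432 * (N : ℝ) ^ (ω / 2)) := by ring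
            _ ≤ N * ((N : ℝ) ^ (ω / 2) * (N : ℝ) ^ (ω / 2)) := by gcongr
            _ = (N : ℝ) ^ (1 + ω) := by rw [hpow2, hpow]
            _ ≤ 576 * (W.card * G) := hWG
            _ = 576 * (S0.card * G) := by rw [h3]
        linarith
      · have h3 : (S0.card : ℝ) = N := by rw [hS0c, min_eq_right hc]
        rw [h3]
        have h4 : 18432 * (N : ℝ) ^ (ω / 2) ≤ 3 * G := by
          calc 18432 * (N : ℝ) ^ (ω / 2) ≤ (N : ℝ) ^ (ω / 2) * (N : ℝ) ^ (ω / 2) := by gcongr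
            _ = (N : ℝ) ^ ω := hpow.symm
            _ ≤ _ := hG1
        have h5 := pos (ω / 2)
        nlinarith
    have h3 : 16 * ((N : ℝ) ^ (ω / 2) * ((N : ℝ) + S0.card)) * G ≤
        16 * ∑ t ∈ S0, ‖D N (fun n => (b n : ℂ)) (t : ℝ)‖ ^ 2 := by
      refine le_trans (mul_le_mul_of_nonneg_right h2 hG0.le) ?_
      linarith
    linarith

end Pool.Agent.Results.MP_71ac24_nt.EverySupport
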