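import Pool.Agent.Q93.DP.Adm

/-!
# Montgomery's conjecture along fixed coefficient sequences: category, dimension, measure

In Montgomery's conjecture the coefficients may change with the length `N`. We compare it with the
same bound for one infinite sequence of coefficients, of which all polynomials are partial sums
(with constants depending on the sequence).

(1) Category. Let `Z 0, Z 1, …` be closed subsets of the closed unit disc with diameters bounded
below, for instance all equal to `{1, -1}` or to `{0, 1}`. The conjecture holds if and only if it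
holds for every fixed sequence `a_n ∈ Z n`, if and only if it holds for the sequences of a set which
is not meagre in `∏ Z n`.

(2) Dimension. The conjecture holds if and only if the sign sequences along which it fails form a
set of Hausdorff dimension less than one in the Cantor space.

(3) Measure. For independent coefficients `X_n` with `|X_n| ≤ 1` almost surely
`|D_X(t) - D_{E X}(t)|² ≤ C N log (N + |t| + 2)` for all `N` and all real `t`; hence almost surely the
bound of the conjecture holds along `X` if and only if it holds along the sequence of the means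
(in particular it holds along almost all sign sequences).

(1) and (2) also hold for every single exponent `ε`. So, if the conjecture is false, the set of the
sign sequences along which it fails is a null set which is comeagre and of dimension one.
-/

set_option autoImplicit false

namespace Pool.Agent.Results.MP_71ac24_nt.GenericSequences

open MeasureTheory ProbabilityTheory

attribute [local instance] PiNat.metricSpace

/-- `D(t) = ∑_{n ≤ N} a_n n^{it}` -/
noncomputable def D (a : ℕ → ℂ) (N : ℕ) (t : ℝ) : ℂ :=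
  ∑ n ∈ Finset.Icc 1 N, a n * Complex.exp (Complex.I * (t : ℂ) * (Real.log (n : ℝ) : ℂ))

/-- `S` is a `1`-separated subset of `[0, T]` for some `T ≤ N ^ 2` -/
def Admissible (N : ℕ) (S : Finset ℝ) : Prop :=
  1 ≤ N ∧ ∃ T : ℝ, T ≤ (N : ℝ) ^ 2 ∧ (∀ t ∈ S, 0 ≤ t ∧ t ≤ T) ∧
    ∀ t ∈ S, ∀ u ∈ S, t ≠ u → 1 ≤ |t - u|

/-- the inequality of the conjecture -/
def Ineq (ε C : ℝ) (a : ℕ → ℂ) (N : ℕ) (S : Finset ℝ) : Prop :=
  ∑ t ∈ S, ‖D a N t‖ ^ 2 ≤ C * (N : ℝ) ^ ε * ((N : ℝ) + (S.card : ℝ)) * (N : ℝ)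

/-- the conjecture with exponent `ε`: all coefficients of modulus at most one -/
def MontgomeryAt (ε : ℝ) : Prop :=
  ∃ C : ℝ, ∀ (N : ℕ) (S : Finset ℝ), Admissible N S → ∀ a : ℕ → ℂ, (∀ n, ‖a n‖ ≤ 1) →
    Ineq ε C a N S

/-- Montgomery's conjecture (Q1) -/
def Montgomery : Prop := ∀ ε : ℝ, 0 < ε → MontgomeryAt ε

/-- the bound with exponent `ε` along a fixed sequence -/
def AlongAt (ε : ℝ) (a : ℕ → ℂ) : Prop :=
  ∃ C : ℝ, ∀ (N : ℕ) (S : Finset ℝ), Admissible N S → Ineq ε C a N S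

/-- the conjecture along a fixed sequence -/
def Along (a : ℕ → ℂ) : Prop := ∀ ε : ℝ, 0 < ε → AlongAt ε a

/-- the sets of admissible coefficients: closed, in the unit disc, of diameters at least `δ` -/
def Good (Z : ℕ → Set ℂ) (δ : ℝ) : Prop :=
  ∀ n, IsClosed (Z n) ∧ (∀ z ∈ Z n, ‖z‖ ≤ 1) ∧ ∃ u ∈ Z n, ∃ v ∈ Z n, δ ≤ ‖v - u‖

lemma ph_eq (a : ℕ → ℂ) (N : ℕ) (S : Finset ℝ) :
    ∑ t ∈ S, ‖D a N t‖ ^ 2 = Pool.Agent.Q93.DP.Ph 2 S 1 N a := by
  unfold Pool.Agent.Q93.DP.Ph
  refine Finset.sum_congr rfl fun t _ => ?_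
  rw [Real.rpow_two]
  rfl

/-- the configurations -/
abbrev X := {x : ℕ × Finset ℝ // Admissible x.1 x.2}

/-- the majorant -/
noncomputable def g (ε : ℝ) (x : X) : ℝ :=
  (x.1.1 : ℝ) ^ ε * ((x.1.1 : ℝ) + (x.1.2.card : ℝ)) * (x.1.1 : ℝ)

lemma montgomeryAt_iff (ε : ℝ) : MontgomeryAt ε ↔
    Pool.Agent.Q93.DP.UBd (fun _ : X => 1) (fun x => x.1.1) (fun x => x.1.2) (g ε) 2 := by
  constructor
  · rintro ⟨C, hC⟩
    refine ⟨C, fun x a ha => ?_⟩
    have := hC x.1.1 x.1.2 x.2 a ha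
    unfold Ineq at this
    rw [ph_eq] at this
    refine this.trans (le_of_eq ?_)
    unfold g
    ring
  · rintro ⟨C, hC⟩
    refine ⟨C, fun N S h a ha => ?_⟩
    have := hC ⟨(N, S), h⟩ a ha
    unfold Ineq
    rw [ph_eq]
    refine this.trans (le_of_eq ?_)
    unfold g
    ring

lemma alongAt_iff (ε : ℝ) (a : ℕ → ℂ) : AlongAt ε a ↔
    Pool.Agent.Q93.DP.Bd (fun _ : X => 1) (fun x => x.1.1) (fun x => x.1.2) (g ε) 2 a := by
  constructor
  · rintro ⟨C, hC⟩
    refine ⟨C, fun x => ?_⟩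
    have := hC x.1.1 x.1.2 x.2
    unfold Ineq at this
    rw [ph_eq] at this
    refine this.trans (le_of_eq ?_)
    unfold g
    ring
  · rintro ⟨C, hC⟩
    refine ⟨C, fun N S h => ?_⟩
    have := hC ⟨(N, S), h⟩
    unfold Ineq
    rw [ph_eq]
    refine this.trans (le_of_eq ?_)
    unfold g
    ring

lemma meagre_at {ε : ℝ} (hε : 0 < ε) {Z : ℕ → Set ℂ} {δ : ℝ} (hδ : 0 < δ) (hZ : Good Z δ)
    (h : ¬ MontgomeryAt ε) : IsMeagre {a : ∀ n, Z n | AlongAt ε (fun n => (a n : ℂ))} := by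
  rw [montgomeryAt_iff] at h
  have hpos : ∀ x : X, 0 < (x.1.1 : ℝ) := fun x => by exact_mod_cast x.2.1
  have hm := Pool.Agent.Q93.DP.meagre_of_not (fun _ : X => 1) (fun x => x.1.1) (fun x => x.1.2)
    (g ε) (q := 2) (by norm_num) (c := 1) (by norm_num) ?_ ?_ Z hδ (fun n => (hZ n).2.2) h
  · refine hm.mono ?_
    intro a ha
    exact (alongAt_iff ε _).1 ha
  · intro x
    have := hpos x
    unfold g
    positivity
  · intro x
    have h1 := hpos x
    have h2 : (1 : ℝ) ≤ x.1.1 := by exact_mod_cast x.2.1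
    have h3 : (1 : ℝ) ≤ (x.1.1 : ℝ) ^ ε := Real.one_le_rpow h2 hε.le
    have h4 : (0 : ℝ) ≤ (x.1.2.card : ℝ) := Nat.cast_nonneg _
    unfold g
    rw [one_mul]
    calc (x.1.2.card : ℝ) = 1 * (x.1.2.card : ℝ) * 1 := by ring
      _ ≤ (x.1.1 : ℝ) ^ ε * ((x.1.1 : ℝ) + (x.1.2.card : ℝ)) * (x.1.1 : ℝ) := by
          apply mul_le_mul _ h2 (by norm_num) (by positivity)
          exact mul_le_mul h3 (by linarith) h4 (by positivity)

lemma not_meagre_univ {Z : ℕ → Set ℂ} {δ : ℝ} (hZ : Good Z δ) :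
    ¬ IsMeagre (Set.univ : Set (∀ n, Z n)) :=
  Pool.Agent.Q93.DP.univ_not_meagre (fun n => (hZ n).1) (fun n => (hZ n).2.1)
    (fun n => by obtain ⟨u, hu, -⟩ := (hZ n).2.2; exact ⟨u, hu⟩)

lemma along_of_montgomeryAt {ε : ℝ} (h : MontgomeryAt ε) {Z : ℕ → Set ℂ} {δ : ℝ} (hZ : Good Z δ)
    (a : ∀ n, Z n) : AlongAt ε (fun n => (a n : ℂ)) := by
  obtain ⟨C, hC⟩ := h
  exact ⟨C, fun N S hS => hC N S hS _ fun n => (hZ n).2.1 _ (a n).2⟩

lemma along_of_small {a : ℕ → ℂ} (h : Pool.Agent.Q93.DP.Small a) (ε : ℝ) (hε : 0 < ε) :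
    AlongAt ε a := by
  obtain ⟨C, hC0, hC⟩ := h
  refine ⟨C * (4 ^ (ε / 2) / (ε / 2)), fun N S hS => ?_⟩
  obtain ⟨hN, T, hT, hST, -⟩ := hS
  have hN1 : (1 : ℝ) ≤ N := by exact_mod_cast hN
  have hN0 : (0 : ℝ) < N := by linarith
  have hlog : ∀ t ∈ S, Real.log (N + |t| + 2) ≤ 4 ^ (ε / 2) / (ε / 2) * (N : ℝ) ^ ε := by
    intro t ht
    obtain ⟨h1, h2⟩ := hST t ht
    rw [abs_of_nonneg h1]
    have h3 : Real.log (N + t + 2) ≤ Real.log (4 * (N : ℝ) ^ 2) := by
      apply Real.log_le_log (by positivity)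
      nlinarith
    refine h3.trans ?_
    have h4 := Real.log_le_rpow_div (x := 4 * (N : ℝ) ^ 2) (by positivity)
      (show 0 < ε / 2 by positivity)
    refine h4.trans (le_of_eq ?_)
    rw [Real.mul_rpow (by norm_num) (by positivity), ← Real.rpow_natCast, ← Real.rpow_mul hN0.le]
    have : ((2 : ℕ) : ℝ) * (ε / 2) = ε := by push_cast; ring
    rw [this]
    ring
  unfold Ineq
  have hcoef : 0 ≤ (4 : ℝ) ^ (ε / 2) / (ε / 2) * (N : ℝ) ^ ε := by positivity
  calc ∑ t ∈ S, ‖D a N t‖ ^ 2 ≤ ∑ _t ∈ S, C * (N * (4 ^ (ε / 2) / (ε / 2) * (N : ℝ) ^ ε)) := by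
        refine Finset.sum_le_sum fun t ht => (hC N t).trans ?_
        apply mul_le_mul_of_nonneg_left _ hC0
        exact mul_le_mul_of_nonneg_left (hlog t ht) hN0.le
    _ = (S.card : ℝ) * (C * (N * (4 ^ (ε / 2) / (ε / 2) * (N : ℝ) ^ ε))) := by
        rw [Finset.sum_const, nsmul_eq_mul]
    _ ≤ ((N : ℝ) + (S.card : ℝ)) * (C * (N * (4 ^ (ε / 2) / (ε / 2) * (N : ℝ) ^ ε))) := by
        apply mul_le_mul_of_nonneg_right _ (by positivity)
        linarith
    _ = _ := by ring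

lemma adm_at (ε : ℝ) (hε : 0 < ε) : Pool.Agent.Q93.DP.Adm (AlongAt ε) := by
  have h := Pool.Agent.Q93.DP.adm_Bd (fun _ : X => 1) (fun x => x.1.1) (fun x => x.1.2) (g ε)
    (q := 2) (by norm_num) (fun a ha => (alongAt_iff ε a).1 (along_of_small ha ε hε))
  have e : AlongAt ε = Pool.Agent.Q93.DP.Bd (fun _ : X => 1) (fun x => x.1.1) (fun x => x.1.2)
      (g ε) 2 := by
    funext a
    exact propext (alongAt_iff ε a)
  rw [e]
  exact h

lemma adm_all : Pool.Agent.Q93.DP.Adm Along :=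
  Pool.Agent.Q93.DP.Adm.all (p := fun ε : ℝ => 0 < ε) (P := AlongAt) adm_at

lemma good_pm : Good Pool.Agent.Q93.DP.pm 2 := by
  intro n
  refine ⟨(Set.toFinite {1, -1}).isClosed, ?_, 1, Or.inl rfl, -1, Or.inr rfl, ?_⟩
  · intro z hz
    rcases hz with rfl | hz
    · simp
    · have : z = -1 := hz
      rw [this]; simp
  · norm_num

/-- the coefficients `1`, `-1` of a point of the Cantor space -/
noncomputable def signs (e : ℕ → Bool) (n : ℕ) : ℂ := if e n then 1 else -1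

lemma signs_eq (e : ℕ → Bool) : signs e = Pool.Agent.Q93.DP.sgn e := by
  funext n
  unfold signs Pool.Agent.Q93.DP.sgn Pool.Agent.Q93.DP.sg
  split_ifs <;> simp

theorem result :
    (∀ (Z : ℕ → Set ℂ) (δ : ℝ), 0 < δ → Good Z δ →
      (Montgomery ↔ ∀ a : ∀ n, Z n, Along fun n => (a n : ℂ)) ∧
      (Montgomery ↔ ¬ IsMeagre {a : ∀ n, Z n | Along fun n => (a n : ℂ)}) ∧
      (∀ ε : ℝ, 0 < ε →
        (MontgomeryAt ε ↔ ¬ IsMeagre {a : ∀ n, Z n | AlongAt ε fun n => (a n : ℂ)}))) ∧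
    ((Montgomery ↔ dimH {e : ℕ → Bool | ¬ Along (signs e)} < 1) ∧
      (∀ ε : ℝ, 0 < ε →
        (MontgomeryAt ε ↔ dimH {e : ℕ → Bool | ¬ AlongAt ε (signs e)} < 1))) ∧
    (∀ (Ω : Type) [MeasurableSpace Ω] (μ : Measure Ω) [IsProbabilityMeasure μ] (X : ℕ → Ω → ℂ),
      (∀ n, Measurable (X n)) → iIndepFun X μ → (∀ n ω, ‖X n ω‖ ≤ 1) →
      (∀ᵐ ω ∂μ, ∃ C : ℝ, ∀ (N : ℕ) (t : ℝ),
        ‖D (fun n => X n ω - ∫ ω', X n ω' ∂μ) N t‖ ^ 2 ≤ C * (N * Real.log (N + |t| + 2))) ∧
      (∀ᵐ ω ∂μ, (Along (fun n => X n ω) ↔ Along (fun n => ∫ ω', X n ω' ∂μ))) ∧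
      (∀ ε : ℝ, 0 < ε →
        ∀ᵐ ω ∂μ, (AlongAt ε (fun n => X n ω) ↔ AlongAt ε (fun n => ∫ ω', X n ω' ∂μ)))) := by
  have hallZ : ∀ (Z : ℕ → Set ℂ) (δ : ℝ), 0 < δ → Good Z δ →
      ¬ Montgomery → IsMeagre {a : ∀ n, Z n | Along fun n => (a n : ℂ)} := by
    intro Z δ hδ hZ h
    unfold Montgomery at h
    push Not at h
    obtain ⟨ε, hε, hcon⟩ := h
    exact (meagre_at hε hδ hZ hcon).mono fun a ha => ha ε hε
  refine ⟨fun Z δ hδ hZ => ?_, ⟨?_, fun ε hε => ?_⟩, fun Ω _ μ _ X hm hi hb => ?_⟩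
  · have hall : Montgomery → ∀ a : ∀ n, Z n, Along fun n => (a n : ℂ) :=
      fun h a ε hε => along_of_montgomeryAt (h ε hε) hZ a
    have hcat : (∀ a : ∀ n, Z n, Along fun n => (a n : ℂ)) →
        ¬ IsMeagre {a : ∀ n, Z n | Along fun n => (a n : ℂ)} := by
      intro h hm
      apply not_meagre_univ hZ
      refine hm.mono fun a _ => h a
    have hback : ¬ IsMeagre {a : ∀ n, Z n | Along fun n => (a n : ℂ)} → Montgomery := by
      intro h
      by_contra hcon
      exact h (hallZ Z δ hδ hZ hcon)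
    refine ⟨⟨hall, fun h => hback (hcat h)⟩, ⟨fun h => hcat (hall h), hback⟩, fun ε hε => ?_⟩
    constructor
    · intro h hm
      apply not_meagre_univ hZ
      refine hm.mono fun a _ => along_of_montgomeryAt h hZ a
    · intro h
      by_contra hcon
      exact h (meagre_at hε hδ hZ hcon)
  · constructor
    · intro h
      have he : {e : ℕ → Bool | ¬ Along (signs e)} = ∅ := by
        rw [Set.eq_empty_iff_forall_notMem]
        intro e he
        apply he
        intro ε hε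
        obtain ⟨C, hC⟩ := h ε hε
        exact ⟨C, fun N S hS => hC N S hS _ fun n => by unfold signs; split_ifs <;> simp⟩
      rw [he, dimH_empty]
      exact one_pos
    · intro h
      by_contra hcon
      have h1 := Pool.Agent.Q93.DP.dim_of_cat adm_all
        (hallZ _ 2 (by norm_num) good_pm hcon)
      simp only [← signs_eq] at h1
      exact absurd h (not_lt.2 h1)
  · constructor
    · intro h
      have he : {e : ℕ → Bool | ¬ AlongAt ε (signs e)} = ∅ := by
        rw [Set.eq_empty_iff_forall_notMem]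
        intro e he
        apply he
        obtain ⟨C, hC⟩ := h
        exact ⟨C, fun N S hS => hC N S hS _ fun n => by unfold signs; split_ifs <;> simp⟩
      rw [he, dimH_empty]
      exact one_pos
    · intro h
      by_contra hcon
      have h1 := Pool.Agent.Q93.DP.dim_of_cat (adm_at ε hε)
        (meagre_at hε (by norm_num : (0 : ℝ) < 2) good_pm hcon)
      simp only [← signs_eq] at h1
      exact absurd h (not_lt.2 h1)
  · refine ⟨?_, Pool.Agent.Q93.DP.as_iff adm_all hm hi hb, fun ε hε =>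
      Pool.Agent.Q93.DP.as_iff (adm_at ε hε) hm hi hb⟩
    filter_upwards [Pool.Agent.Q93.DP.as_center hm hi hb] with ω hω
    obtain ⟨C, -, hC⟩ := hω
    exact ⟨C, hC⟩

end Pool.Agent.Results.MP_71ac24_nt.GenericSequences
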