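import Mathlib
import Pool.Agent.Q261.L6.Almost

set_option autoImplicit false

/-!
# Montgomery's conjecture for almost all additive twists and sets of at most `N^(1/2)` points, all `T ≤ N²`

For every `D(t) = ∑_{n ≤ N} a_n n^{it}` with `|a_n| ≤ 1` and every modulus `m ≥ 1`, all but at most
`m N^(-ε/4)` of the `m` twisted polynomials `∑ a_n e(rn/m) n^{it}`, `r mod m`, satisfy
`∑_{t ∈ S} |D(t)|² ≤ C N^ε (|S|² (1 + N/m) N⁵)^(1/3)` simultaneously for all `1`-separated `S ⊂ [0, N²]`. This gives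
the bound `C N^ε (N + |S|) N` of Q1 for all sets `S ⊂ [0, N²]` with `|S|² (1 + N/m) ≤ N`, that is for up to about
`min(m, N)^(1/2)` points; for all polynomials it is known for at most `N/T^(1/2)` points of `[0,T]`, that is for `O(1)`
points when `T = N²`.

The proof: the hybrid sixth moment
`∑_{r mod m} ∑_{t ∈ S_r} |D_r(t)|⁶ ≤ C N^(3+ε) (m + N) (T + N²)`
(`Pool/Agent/Q261/L6/Hybrid.lean`), derived from a sixth moment inequality for all integer valued sequences with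
second difference comparable to `1`, proved by elementary means (`Pool/Agent/Q261/L6/Main.lean`).
-/

namespace Pool.Agent.Results.MP_71ac24_nt.SixthMomentTwists

open Finset

/-- `D(t) = ∑_{n ≤ N} a_n n^{it}` -/
noncomputable def D (N : ℕ) (a : ℕ → ℂ) (t : ℝ) : ℂ :=
  ∑ n ∈ Icc 1 N, a n * Complex.exp (Complex.I * (t : ℂ) * (Real.log (n : ℝ) : ℂ))

/-- the coefficients `a_n e(rn/m)`, `e(x) = exp(2πix)` -/
noncomputable def twist (m r : ℕ) (a : ℕ → ℂ) (n : ℕ) : ℂ :=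
  a n * Complex.exp (2 * Real.pi * Complex.I * ((r : ℂ) * n / m))

/-- the bound for all `1`-separated sets of `[0, N²]`; the second part is the inequality of Q1 for the sets with
`|S|² (1 + N/m) ≤ N` -/
def Montgomery (C ε : ℝ) (N m : ℕ) (a : ℕ → ℂ) : Prop :=
  ∀ S : Finset ℝ, (∀ t ∈ S, 0 ≤ t ∧ t ≤ (N : ℝ) ^ 2) → (∀ t ∈ S, ∀ u ∈ S, t ≠ u → 1 ≤ |t - u|) →
    ∑ t ∈ S, ‖D N a t‖ ^ 2 ≤
      C * (N : ℝ) ^ ε * ((S.card : ℝ) ^ 2 * ((1 + (N : ℝ) / m) * (N : ℝ) ^ 5)) ^ (1 / 3 : ℝ) ∧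
    ((S.card : ℝ) ^ 2 * (1 + (N : ℝ) / m) ≤ N →
      ∑ t ∈ S, ‖D N a t‖ ^ 2 ≤ C * (N : ℝ) ^ ε * ((N + S.card) * N))

/-- **Main theorem.** -/
theorem result (ε : ℝ) (hε : 0 < ε) : ∃ C : ℝ, ∀ N m : ℕ, 1 ≤ N → 1 ≤ m →
    ∀ a : ℕ → ℂ, (∀ n, ‖a n‖ ≤ 1) → ∃ B : Finset ℕ, B ⊆ range m ∧ (B.card : ℝ) ≤ m * (N : ℝ) ^ (-(ε / 4)) ∧
      ∀ r ∈ range m, r ∉ B → Montgomery C ε N m (twist m r a) := by
  classical
  have hε0 : 0 < ε / 4 := by positivity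
  obtain ⟨C, hC, hsix⟩ := Pool.Agent.Q261.L6.sixthTW hε0
  refine ⟨2 * C, ?_⟩
  intro N m hN hm a ha
  have hsub : Icc 1 N ⊆ Icc 1 (2 * N) := Icc_subset_Icc_right (by omega)
  obtain ⟨B, hB1, hB2, hB3⟩ := hsix N m hN hm (Icc 1 N) hsub a ha
  refine ⟨B, hB1, hB2, ?_⟩
  intro r hr hrB S hS hsep
  have hNr : (1 : ℝ) ≤ N := by exact_mod_cast hN
  have hN0 : (0 : ℝ) < N := by linarith
  have hNε : 1 ≤ (N : ℝ) ^ ε := Real.one_le_rpow hNr hε.le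
  have hm0 : (0 : ℝ) ≤ (N : ℝ) / m := by positivity
  have h1 : ∑ t ∈ S, ‖D N (twist m r a) t‖ ^ 6 ≤ 2 * C * (N : ℝ) ^ ε * ((1 + (N : ℝ) / m) * (N : ℝ) ^ 5) := by
    have h2 : ∑ t ∈ S, ‖D N (twist m r a) t‖ ^ 6 ≤ C * (N : ℝ) ^ (2 * (ε / 4)) * ((N : ℝ) ^ 2) ^ (ε / 4) *
        ((1 + (N : ℝ) / m) * ((N : ℝ) ^ 3 * ((N : ℝ) ^ 2 + (N : ℝ) ^ 2))) :=
      hB3 r hr hrB ((N : ℝ) ^ 2) (one_le_pow₀ hNr) S hS hsep
    refine h2.trans (le_of_eq ?_)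
    have e1 : (N : ℝ) ^ ε = (N : ℝ) ^ (2 * (ε / 4)) * ((N : ℝ) ^ 2) ^ (ε / 4) := by
      rw [← Real.rpow_natCast (N : ℝ) 2, ← Real.rpow_mul hN0.le, ← Real.rpow_add hN0]
      congr 1
      push_cast
      ring
    rw [e1]
    ring
  set Z : ℝ := (1 + (N : ℝ) / m) * (N : ℝ) ^ 5 with hZ
  have hZ0 : 0 ≤ Z := by positivity
  have hX0 : 0 ≤ ∑ t ∈ S, ‖D N (twist m r a) t‖ ^ 2 := sum_nonneg fun _ _ => by positivity
  have hY0 : 0 ≤ ((S.card : ℝ) ^ 2 * Z) ^ (1 / 3 : ℝ) := Real.rpow_nonneg (by positivity) _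
  have hY3 : (((S.card : ℝ) ^ 2 * Z) ^ (1 / 3 : ℝ)) ^ 3 = (S.card : ℝ) ^ 2 * Z := by
    rw [← Real.rpow_natCast, ← Real.rpow_mul (by positivity)]
    norm_num
  have h2 : (∑ t ∈ S, ‖D N (twist m r a) t‖ ^ 2) ^ 3 ≤
      (2 * C * (N : ℝ) ^ ε * ((S.card : ℝ) ^ 2 * Z) ^ (1 / 3 : ℝ)) ^ 3 := by
    have h3 := pow_sum_le_card_mul_sum_pow (s := S) (f := fun t => ‖D N (twist m r a) t‖ ^ 2)
      (fun _ _ => by positivity) 2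
    have h4 : ∀ t ∈ S, (‖D N (twist m r a) t‖ ^ 2) ^ (2 + 1) = ‖D N (twist m r a) t‖ ^ 6 := fun t _ => by ring
    rw [sum_congr rfl h4] at h3
    have hc1 : 1 ≤ 2 * C * (N : ℝ) ^ ε := by nlinarith
    calc (∑ t ∈ S, ‖D N (twist m r a) t‖ ^ 2) ^ 3 ≤ (S.card : ℝ) ^ 2 * ∑ t ∈ S, ‖D N (twist m r a) t‖ ^ 6 := h3
      _ ≤ (S.card : ℝ) ^ 2 * (2 * C * (N : ℝ) ^ ε * Z) := by gcongr
      _ = (2 * C * (N : ℝ) ^ ε) * ((S.card : ℝ) ^ 2 * Z) := by ring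
      _ ≤ (2 * C * (N : ℝ) ^ ε) ^ 3 * ((S.card : ℝ) ^ 2 * Z) := by
          apply mul_le_mul_of_nonneg_right _ (by positivity)
          exact le_self_pow₀ hc1 (by norm_num)
      _ = _ := by rw [mul_pow (2 * C * (N : ℝ) ^ ε) _ 3, hY3]
  have h3 : ∑ t ∈ S, ‖D N (twist m r a) t‖ ^ 2 ≤
      2 * C * (N : ℝ) ^ ε * ((S.card : ℝ) ^ 2 * Z) ^ (1 / 3 : ℝ) :=
    le_of_pow_le_pow_left₀ (by norm_num) (by positivity) h2
  refine ⟨h3, ?_⟩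
  intro hSN
  refine h3.trans ?_
  apply mul_le_mul_of_nonneg_left _ (by positivity)
  have h4 : ((S.card : ℝ) ^ 2 * Z) ^ (1 / 3 : ℝ) ≤ (N : ℝ) ^ 2 := by
    apply le_of_pow_le_pow_left₀ (n := 3) (by norm_num) (by positivity)
    rw [hY3]
    calc (S.card : ℝ) ^ 2 * Z = ((S.card : ℝ) ^ 2 * (1 + (N : ℝ) / m)) * (N : ℝ) ^ 5 := by rw [hZ]; ring
      _ ≤ N * (N : ℝ) ^ 5 := by gcongr
      _ = ((N : ℝ) ^ 2) ^ 3 := by ring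
  have h5 : (0 : ℝ) ≤ S.card := by positivity
  nlinarith

end Pool.Agent.Results.MP_71ac24_nt.SixthMomentTwists
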